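import Pool.Agent.X238.DW.Stm

/-! Part `DW_EXI`: the bounded solution for continuous compactly supported `f`. -/

namespace Pool.Agent.X56.DW

open Pool.Agent.X238.DW MeasureTheory Set Filter Topology

theorem alpha {c l : ℝ} {P G : ℝ → ℝ} (h : Ker c l P G) (t : ℝ) :
    P t * G (-t) + G t * P (-t) + c * (P t * P (-t)) = 0 := by
  have hneg : ∀ t : ℝ, HasDerivAt (fun t : ℝ => -t) (-1) t := fun t => hasDerivAt_neg t
  have dPn : ∀ t, HasDerivAt (fun t => P (-t)) (-(G (-t))) t := by
    intro t
    have h1 : HasDerivAt (fun t => P (-t)) (G (-t) * (-1)) t :=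
      HasDerivAt.comp t (h.dP (-t)) (hneg t)
    rwa [mul_neg_one] at h1
  have dGn : ∀ t, HasDerivAt (fun t => G (-t)) (-(-(c * G (-t)) - l * P (-t))) t := by
    intro t
    have h1 : HasDerivAt (fun t => G (-t)) ((-(c * G (-t)) - l * P (-t)) * (-1)) t :=
      HasDerivAt.comp t (h.dG (-t)) (hneg t)
    rwa [mul_neg_one] at h1
  have hd : ∀ t, HasDerivAt (fun t => P t * G (-t) + G t * P (-t) + c * (P t * P (-t))) 0 t := by
    intro t
    have h1 : HasDerivAt (fun t => P t * G (-t) + G t * P (-t) + c * (P t * P (-t))) _ t :=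
      (((h.dP t).mul (dGn t)).add ((h.dG t).mul (dPn t))).add
      (((h.dP t).mul (dPn t)).const_mul c)
    exact h1.congr_deriv (by ring)
  have hc := is_const_of_deriv_eq_zero (fun t => (hd t).differentiableAt)
    (fun t => (hd t).deriv) t 0
  beta_reduce at hc
  rw [hc, neg_zero, h.P0]
  ring

theorem beta {c l : ℝ} {P G : ℝ → ℝ} (h : Ker c l P G) (t : ℝ) :
    G t * G (-t) - l * (P t * P (-t)) = 1 := by
  have hneg : ∀ t : ℝ, HasDerivAt (fun t : ℝ => -t) (-1) t := fun t => hasDerivAt_neg t
  have dPn : ∀ t, HasDerivAt (fun t => P (-t)) (-(G (-t))) t := by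
    intro t
    have h1 : HasDerivAt (fun t => P (-t)) (G (-t) * (-1)) t :=
      HasDerivAt.comp t (h.dP (-t)) (hneg t)
    rwa [mul_neg_one] at h1
  have dGn : ∀ t, HasDerivAt (fun t => G (-t)) (-(-(c * G (-t)) - l * P (-t))) t := by
    intro t
    have h1 : HasDerivAt (fun t => G (-t)) ((-(c * G (-t)) - l * P (-t)) * (-1)) t :=
      HasDerivAt.comp t (h.dG (-t)) (hneg t)
    rwa [mul_neg_one] at h1
  have hd : ∀ t, HasDerivAt (fun t => G t * G (-t) - l * (P t * P (-t))) 0 t := by
    intro t
    have h1 : HasDerivAt (fun t => G t * G (-t) - l * (P t * P (-t))) _ t :=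
      ((h.dG t).mul (dGn t)).sub (((h.dP t).mul (dPn t)).const_mul l)
    exact h1.congr_deriv (by ring)
  have hc := is_const_of_deriv_eq_zero (fun t => (hd t).differentiableAt)
    (fun t => (hd t).deriv) t 0
  beta_reduce at hc
  rw [hc, neg_zero, h.P0, h.G0]
  ring

theorem t_EXI : S_EXI := by
  intro c l P G hK hD f T hf hT
  obtain ⟨γ, C, hγ, hdec⟩ := hD
  have cP : Continuous P := continuous_iff_continuousAt.mpr fun t => (hK.dP t).continuousAt
  have cG : Continuous G := continuous_iff_continuousAt.mpr fun t => (hK.dG t).continuousAt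
  set S : ℝ := max T 1 with hS
  have hS0 : 0 < S := lt_of_lt_of_le one_pos (le_max_right _ _)
  have hfS : ∀ t, S ≤ |t| → f t = 0 := fun t ht => hT t (le_trans (le_max_left _ _) ht)
  have cA : Continuous fun τ => G (-τ) * f τ := by fun_prop
  have cB : Continuous fun τ => P (-τ) * f τ := by fun_prop
  set A : ℝ → ℝ := fun t => ∫ τ in (-S)..t, G (-τ) * f τ with hA
  set B : ℝ → ℝ := fun t => ∫ τ in (-S)..t, P (-τ) * f τ with hB
  have dA : ∀ t, HasDerivAt A (G (-t) * f t) t := fun t =>
    intervalIntegral.integral_hasDerivAt_right (cA.intervalIntegrable _ _)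
      (cA.stronglyMeasurableAtFilter _ _) cA.continuousAt
  have dB : ∀ t, HasDerivAt B (P (-t) * f t) t := fun t =>
    intervalIntegral.integral_hasDerivAt_right (cB.intervalIntegrable _ _)
      (cB.stronglyMeasurableAtFilter _ _) cB.continuousAt
  set u : ℝ → ℝ := fun t => P t * A t + G t * B t + c * (P t * B t) with hu
  set w : ℝ → ℝ := fun t => G t * A t - l * (P t * B t) with hw
  have du : ∀ t, HasDerivAt u (w t) t := by
    intro t
    have h1 : HasDerivAt u _ t := (((hK.dP t).mul (dA t)).add ((hK.dG t).mul (dB t))).add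
      (((hK.dP t).mul (dB t)).const_mul c)
    have ha := alpha hK t
    refine h1.congr_deriv ?_
    show _ = G t * A t - l * (P t * B t)
    linear_combination (f t) * ha
  have dw : ∀ t, HasDerivAt w (f t - c * w t - l * u t) t := by
    intro t
    have h1 : HasDerivAt w _ t := ((hK.dG t).mul (dA t)).sub (((hK.dP t).mul (dB t)).const_mul l)
    have hb := beta hK t
    refine h1.congr_deriv ?_
    show _ = f t - c * (G t * A t - l * (P t * B t)) - l * (P t * A t + G t * B t + c * (P t * B t))
    linear_combination (f t) * hb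
  have cu : Continuous u := continuous_iff_continuousAt.mpr fun t => (du t).continuousAt
  have cw : Continuous w := continuous_iff_continuousAt.mpr fun t => (dw t).continuousAt
  -- values outside [-S, S]
  have hA0 : ∀ t, t ≤ -S → A t = 0 ∧ B t = 0 := by
    intro t ht
    constructor
    · show (∫ τ in (-S)..t, G (-τ) * f τ) = 0
      rw [intervalIntegral.integral_congr (g := fun _ => (0 : ℝ))]
      · simp
      · intro τ hτ
        rw [uIcc_of_ge ht] at hτ
        have : f τ = 0 := hfS τ (by
          rw [abs_of_nonpos (by linarith [hτ.2])]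
          linarith [hτ.2])
        simp [this]
    · show (∫ τ in (-S)..t, P (-τ) * f τ) = 0
      rw [intervalIntegral.integral_congr (g := fun _ => (0 : ℝ))]
      · simp
      · intro τ hτ
        rw [uIcc_of_ge ht] at hτ
        have : f τ = 0 := hfS τ (by
          rw [abs_of_nonpos (by linarith [hτ.2])]
          linarith [hτ.2])
        simp [this]
  have hA1 : ∀ t, S ≤ t → A t = A S ∧ B t = B S := by
    intro t ht
    have z : ∀ F : ℝ → ℝ, (∫ τ in S..t, F τ * f τ) = 0 := by
      intro F
      rw [intervalIntegral.integral_congr (g := fun _ => (0 : ℝ))]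
      · simp
      · intro τ hτ
        rw [uIcc_of_le ht] at hτ
        have : f τ = 0 := hfS τ (le_trans hτ.1 (le_abs_self _))
        simp [this]
    constructor
    · show (∫ τ in (-S)..t, G (-τ) * f τ) = ∫ τ in (-S)..S, G (-τ) * f τ
      rw [← intervalIntegral.integral_add_adjacent_intervals (cA.intervalIntegrable (-S) S)
        (cA.intervalIntegrable S t), z, add_zero]
    · show (∫ τ in (-S)..t, P (-τ) * f τ) = ∫ τ in (-S)..S, P (-τ) * f τ
      rw [← intervalIntegral.integral_add_adjacent_intervals (cB.intervalIntegrable (-S) S)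
        (cB.intervalIntegrable S t), z, add_zero]
  have hC : 0 ≤ C := by
    have := (hdec 0 le_rfl).1
    have h2 : |P 0| ≤ C := by simpa using this
    exact (abs_nonneg _).trans h2
  have hPb : ∀ t, 0 ≤ t → |P t| ≤ C ∧ |G t| ≤ C := by
    intro t ht
    have he : Real.exp (-(γ * t)) ≤ 1 := by
      rw [Real.exp_le_one_iff]
      have := mul_nonneg hγ.le ht
      linarith
    have := hdec t ht
    constructor
    · exact this.1.trans (by nlinarith [Real.exp_pos (-(γ * t))])
    · exact this.2.trans (by nlinarith [Real.exp_pos (-(γ * t))])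
  obtain ⟨M1, hM1⟩ := (isCompact_Icc (a := -S) (b := S)).exists_bound_of_continuousOn
    cu.continuousOn
  obtain ⟨M2, hM2⟩ := (isCompact_Icc (a := -S) (b := S)).exists_bound_of_continuousOn
    cw.continuousOn
  refine ⟨u, w, |M1| + |M2| + (C * |A S| + C * |B S| + |c| * (C * |B S|)) +
    (C * |A S| + |l| * (C * |B S|)), du, dw, ?_, ?_⟩
  · intro t
    have p1 : 0 ≤ C * |A S| := mul_nonneg hC (abs_nonneg _)
    have p2 : 0 ≤ C * |B S| := mul_nonneg hC (abs_nonneg _)
    have p3 : 0 ≤ |c| * (C * |B S|) := mul_nonneg (abs_nonneg _) p2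
    have p4 : 0 ≤ |l| * (C * |B S|) := mul_nonneg (abs_nonneg _) p2
    have p5 := abs_nonneg M1
    have p6 := abs_nonneg M2
    rcases le_total t (-S) with h1 | h1
    · obtain ⟨a0, b0⟩ := hA0 t h1
      have e1 : u t = 0 := by simp only [hu, a0, b0]; ring
      have e2 : w t = 0 := by simp only [hw, a0, b0]; ring
      rw [e1, e2, abs_zero]
      constructor <;> linarith
    · rcases le_total t S with h2 | h2
      · have b1 := hM1 t ⟨h1, h2⟩
        have b2 := hM2 t ⟨h1, h2⟩
        rw [Real.norm_eq_abs] at b1 b2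
        have q1 := le_abs_self M1
        have q2 := le_abs_self M2
        constructor <;> linarith
      · obtain ⟨a0, b0⟩ := hA1 t h2
        obtain ⟨bp, bg⟩ := hPb t (hS0.le.trans h2)
        have r1 : |P t * A S| ≤ C * |A S| := by
          rw [abs_mul]; exact mul_le_mul_of_nonneg_right bp (abs_nonneg _)
        have r2 : |G t * B S| ≤ C * |B S| := by
          rw [abs_mul]; exact mul_le_mul_of_nonneg_right bg (abs_nonneg _)
        have r3 : |P t * B S| ≤ C * |B S| := by
          rw [abs_mul]; exact mul_le_mul_of_nonneg_right bp (abs_nonneg _)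
        have r4 : |G t * A S| ≤ C * |A S| := by
          rw [abs_mul]; exact mul_le_mul_of_nonneg_right bg (abs_nonneg _)
        have r5 : |c * (P t * B S)| ≤ |c| * (C * |B S|) := by
          rw [abs_mul]; exact mul_le_mul_of_nonneg_left r3 (abs_nonneg _)
        have r6 : |l * (P t * B S)| ≤ |l| * (C * |B S|) := by
          rw [abs_mul]; exact mul_le_mul_of_nonneg_left r3 (abs_nonneg _)
        constructor
        · have e1 : u t = P t * A S + G t * B S + c * (P t * B S) := by
            simp only [hu, a0, b0]
          rw [e1]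
          have := abs_add_three (P t * A S) (G t * B S) (c * (P t * B S))
          linarith
        · have e2 : w t = G t * A S - l * (P t * B S) := by
            simp only [hw, a0, b0]
          rw [e2]
          have := abs_sub (G t * A S) (l * (P t * B S))
          linarith
  · have e0 : w 0 = A 0 := by
      simp only [hw, hK.P0, hK.G0]
      ring
    rw [e0]
    show (∫ τ in (-S)..0, G (-τ) * f τ) = _
    have e1 : (∫ τ in (-S)..0, G (-τ) * f τ) = ∫ s in (0 : ℝ)..S, G s * f (-s) := by
      have := intervalIntegral.integral_comp_neg (a := (0 : ℝ)) (b := S)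
        (fun τ => G (-τ) * f τ)
      rw [neg_zero] at this
      rw [← this]
      simp only [neg_neg]
    rw [e1, intervalIntegral.integral_of_le hS0.le]
    symm
    rw [← Ioc_union_Ioi_eq_Ioi hS0.le]
    have hz : ∀ s ∈ Ioi S, G s * f (-s) = 0 := by
      intro s hs
      have hs' : S < s := hs
      have : f (-s) = 0 := hfS (-s) (by
        rw [abs_neg]
        exact hs'.le.trans (le_abs_self _))
      rw [this, mul_zero]
    have cc : Continuous fun s => G s * f (-s) := by fun_prop
    have i1 : IntegrableOn (fun s => G s * f (-s)) (Ioc 0 S) volume :=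
      (cc.integrableOn_Icc).mono_set Ioc_subset_Icc_self
    have i2 : IntegrableOn (fun s => G s * f (-s)) (Ioi S) volume :=
      (integrableOn_zero).congr_fun (fun s hs => (hz s hs).symm) measurableSet_Ioi
    rw [setIntegral_union (Ioc_disjoint_Ioi le_rfl) measurableSet_Ioi i1 i2,
      setIntegral_eq_zero_of_forall_eq_zero hz, add_zero]

end Pool.Agent.X56.DW
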